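import Pool.Agent.RTF.Stmts

/-!
# INVF: inverses of series that are finite on cosets
-/

namespace Pool.Agent.RTF.H97

open Pool.Agent.Glue Pool.Agent.FB Pool.Agent.CD Pool.Agent.RTF

noncomputable section

variable {G : Type} [Group G]

theorem lt_or (o : BiOrd G) {a b : G} (h : a ≠ b) : o.lt a b ∨ o.lt b a := by
  have h1 : a⁻¹ * b ≠ 1 := by
    intro h2
    exact h (inv_mul_eq_one.1 h2)
  rcases o.tot h1 with h3 | h3
  · left
    exact h3
  · right
    have e : (a⁻¹ * b)⁻¹ = b⁻¹ * a := by group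
    rw [e] at h3
    exact h3

theorem lt_irr (o : BiOrd G) (a : G) : ¬ o.lt a a := by
  intro h
  unfold BiOrd.lt at h
  rw [inv_mul_cancel] at h
  exact o.one h

theorem lt_tr (o : BiOrd G) {a b c : G} (h : o.lt a b) (h' : o.lt b c) : o.lt a c := by
  have h2 := o.mul h h'
  have e : a⁻¹ * b * (b⁻¹ * c) = a⁻¹ * c := by group
  rw [e] at h2
  exact h2

theorem lt_ml (o : BiOrd G) {a b : G} (g : G) (h : o.lt a b) : o.lt (g * a) (g * b) := by
  unfold BiOrd.lt at h ⊢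
  have e : (g * a)⁻¹ * (g * b) = a⁻¹ * b := by group
  rw [e]
  exact h

theorem co_sg_mul (F : SF G) (h : G) (u : F.U) (x : G) :
    F.co (F.sg h * u) x = F.co u (h⁻¹ * x) := by
  rw [F.co_mul, finsum_eq_single _ h]
  · rw [F.co_sg, if_pos rfl, one_mul]
  · intro y hy
    rw [F.co_sg, if_neg hy, zero_mul]

open Classical in
theorem co_one (F : SF G) (x : G) : F.co 1 x = if x = 1 then 1 else 0 := by
  rw [← F.co_sg, F.sg.map_one]

theorem finOn_zero (F : SF G) (B : Subgroup G) : FinOn F B 0 := by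
  intro g
  have e : {x | F.co (0 : F.U) x ≠ 0 ∧ g⁻¹ * x ∈ B} = ∅ := by
    ext x
    simp
  rw [e]
  exact Set.finite_empty

theorem finOn_sg (F : SF G) (B : Subgroup G) (h : G) : FinOn F B (F.sg h) := by
  intro g
  refine (Set.finite_singleton h).subset ?_
  rintro x ⟨hx, -⟩
  by_contra hxh
  apply hx
  rw [F.co_sg, if_neg (by simpa using hxh)]

theorem finOn_mono (F : SF G) {B B' : Subgroup G} (h : B' ≤ B) {u : F.U} (hu : FinOn F B u) :
    FinOn F B' u := by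
  intro g
  refine (hu g).subset ?_
  rintro x ⟨hx, hx'⟩
  exact ⟨hx, h hx'⟩

theorem conv_of (T : CF G) (F : SF G) (h : F.o = T.ord ∨ F.o = T.ord.rev) (i : ℕ) :
    F.o.Conv (T.M i) := by
  rcases h with h | h
  · rw [h]
    exact T.conv i
  · rw [h]
    exact T.conv_rev i

/-- The main step: the geometric series. -/
theorem geo (hN : NeuStmt) (F : SF G) (B : Subgroup G) [hB : B.Normal] (hc : F.o.Conv B)
    (w v : F.U) (hw : FinOn F B w) (hpos : ∀ y, F.co w y ≠ 0 → F.o.pos y ∧ y ∉ B)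
    (hv : v = 1 + w * v) : FinOn F B v := by
  by_contra hbad
  -- the bad elements
  have hex : ∃ x, F.co v x ≠ 0 ∧ ¬ {z | F.co v z ≠ 0 ∧ x⁻¹ * z ∈ B}.Finite := by
    unfold FinOn at hbad
    push Not at hbad
    obtain ⟨g, hg⟩ := hbad
    have hne : {z | F.co v z ≠ 0 ∧ g⁻¹ * z ∈ B}.Nonempty := by
      by_contra h0
      rw [Set.not_nonempty_iff_eq_empty] at h0
      rw [h0] at hg
      exact hg Set.finite_empty
    obtain ⟨x, hx, hxB⟩ := hne
    refine ⟨x, hx, fun hfin => hg (hfin.subset ?_)⟩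
    rintro z ⟨hz, hzB⟩
    refine ⟨hz, ?_⟩
    have h1 := B.mul_mem (B.inv_mem hxB) hzB
    have e : (g⁻¹ * x)⁻¹ * (g⁻¹ * z) = x⁻¹ * z := by group
    rwa [e] at h1
  -- a minimal bad element
  obtain ⟨x0, ⟨hx0, hx0b⟩, hmin⟩ : ∃ x0, (F.co v x0 ≠ 0 ∧
      ¬ {z | F.co v z ≠ 0 ∧ x0⁻¹ * z ∈ B}.Finite) ∧
      ∀ z, (F.co v z ≠ 0 ∧ ¬ {z' | F.co v z' ≠ 0 ∧ z⁻¹ * z' ∈ B}.Finite) → ¬ F.o.lt z x0 := by
    have hwf := (F.wo v).subset (t := Function.support (F.co v)) (s := {z | F.co v z ≠ 0 ∧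
      ¬ {z' | F.co v z' ≠ 0 ∧ z⁻¹ * z' ∈ B}.Finite}) (fun z hz => hz.1)
    rw [Set.wellFoundedOn_iff] at hwf
    obtain ⟨x, hx⟩ := hex
    obtain ⟨m, hm, hm2⟩ := hwf.has_min {z | F.co v z ≠ 0 ∧
      ¬ {z' | F.co v z' ≠ 0 ∧ z⁻¹ * z' ∈ B}.Finite} ⟨x, hx⟩
    refine ⟨m, hm, fun z hz hlt => hm2 z hz ⟨hlt, hz, hm⟩⟩
  -- the key property of decompositions
  have key : ∀ y z, F.co w y ≠ 0 → F.co v z ≠ 0 → x0⁻¹ * (y * z) ∈ B →
      {z' | F.co v z' ≠ 0 ∧ z⁻¹ * z' ∈ B}.Finite := by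
    intro y z hy hz hyz
    by_contra hb
    refine hmin z ⟨hz, hb⟩ ?_
    obtain ⟨hyp, hyB⟩ := hpos y hy
    -- z < y z
    have h1 : F.o.lt z (y * z) := by
      have h2 := F.o.conj z⁻¹ hyp
      have e : z⁻¹ * y * z⁻¹⁻¹ = z⁻¹ * (y * z) := by group
      rw [e] at h2
      exact h2
    have h2 : z⁻¹ * (y * z) ∉ B := by
      intro h3
      apply hyB
      have h4 := hB.conj_mem _ h3 z
      have e : z * (z⁻¹ * (y * z)) * z⁻¹ = y := by group
      rwa [e] at h4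
    have h3 : z ≠ x0 := by
      rintro rfl
      exact h2 hyz
    rcases lt_or F.o h3 with h4 | h4
    · exact h4
    · exfalso
      have h5 : x0⁻¹ * z ∈ B := by
        refine hc (x0⁻¹ * z) (x0⁻¹ * (y * z)) h4 ?_ hyz
        have := lt_ml F.o x0⁻¹ h1
        exact this
      apply h2
      have h6 := B.mul_mem (B.inv_mem h5) hyz
      have e : (x0⁻¹ * z)⁻¹ * (x0⁻¹ * (y * z)) = z⁻¹ * (y * z) := by group
      rwa [e] at h6
  -- finitely many pairs of cosets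
  have hfin := hN G F.o B hc (Function.support (F.co w)) (Function.support (F.co v)) (F.wo w)
    (F.wo v) (x0 : G ⧸ B)
  apply hx0b
  have hsub : {z | F.co v z ≠ 0 ∧ x0⁻¹ * z ∈ B} ⊆ {1} ∪
      ⋃ c ∈ {c : G ⧸ B | (∃ a ∈ Function.support (F.co w), (a : G ⧸ B) = c) ∧
        ∃ a ∈ Function.support (F.co v), (a : G ⧸ B) = c⁻¹ * (x0 : G ⧸ B)},
      Set.image2 (fun y z => y * z) {y | F.co w y ≠ 0 ∧ (y : G ⧸ B) = c}
        {z | F.co v z ≠ 0 ∧ (z : G ⧸ B) = c⁻¹ * (x0 : G ⧸ B)} := by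
    rintro x ⟨hx, hxB⟩
    by_cases hx1 : x = 1
    · left
      exact hx1
    right
    have h1 : F.co v x = F.co (w * v) x := by
      conv_lhs => rw [hv]
      rw [map_add, Pi.add_apply, co_one, if_neg hx1, zero_add]
    rw [F.co_mul] at h1
    obtain ⟨y, hy⟩ : ∃ y, F.co w y * F.co v (y⁻¹ * x) ≠ 0 := by
      by_contra h2
      push Not at h2
      apply hx
      rw [h1]
      simp only [h2, finsum_zero]
    have hy1 : F.co w y ≠ 0 := left_ne_zero_of_mul hy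
    have hy2 : F.co v (y⁻¹ * x) ≠ 0 := right_ne_zero_of_mul hy
    have hcos : ((y⁻¹ * x : G) : G ⧸ B) = (y : G ⧸ B)⁻¹ * (x0 : G ⧸ B) := by
      rw [← QuotientGroup.mk_inv, ← QuotientGroup.mk_mul, QuotientGroup.eq]
      have e : (y⁻¹ * x)⁻¹ * (y⁻¹ * x0) = (x0⁻¹ * x)⁻¹ := by group
      rw [e]
      exact B.inv_mem hxB
    refine Set.mem_biUnion (x := (y : G ⧸ B)) ⟨⟨y, hy1, rfl⟩, ⟨y⁻¹ * x, hy2, hcos⟩⟩ ?_
    exact ⟨y, ⟨hy1, rfl⟩, y⁻¹ * x, ⟨hy2, hcos⟩, by group⟩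
  refine Set.Finite.subset ?_ hsub
  refine (Set.finite_singleton 1).union (hfin.biUnion ?_)
  rintro c ⟨⟨a, ha, rfl⟩, ⟨b, hb, hbc⟩⟩
  refine Set.Finite.image2 _ ?_ ?_
  · refine (hw a).subset ?_
    rintro y ⟨hy, hya⟩
    refine ⟨hy, ?_⟩
    exact QuotientGroup.eq.1 hya.symm
  · have hab : x0⁻¹ * (a * b) ∈ B := by
      rw [← QuotientGroup.eq, QuotientGroup.mk_mul, hbc]
      group
    refine (key a b ha hb hab).subset ?_
    rintro z ⟨hz, hza⟩
    refine ⟨hz, ?_⟩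
    rw [← QuotientGroup.eq, hza, hbc]

open Classical in
theorem invf (hM : MulfStmt) (hN : NeuStmt) : InvfStmt := by
  intro G _ T F hF j u hu
  by_cases hu0 : u = 0
  · refine ⟨j, le_rfl, fun i _ => ?_⟩
    rw [hu0, inv_zero]
    exact finOn_zero F _
  -- the least element of the support
  have hne : (Function.support (F.co u)).Nonempty := by
    rw [Function.support_nonempty_iff]
    intro h
    apply hu0
    apply F.co_inj
    rw [h, map_zero]
  have hwf := F.wo u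
  rw [Set.wellFoundedOn_iff] at hwf
  obtain ⟨g, hg, hgmin⟩ : ∃ g, F.co u g ≠ 0 ∧ ∀ z, F.co u z ≠ 0 → z ≠ g → F.o.lt g z := by
    obtain ⟨m, hm, hm2⟩ := hwf.has_min _ hne
    refine ⟨m, hm, fun z hz hzm => ?_⟩
    rcases lt_or F.o hzm with h | h
    · exact absurd ⟨h, hz, hm⟩ (hm2 z hz)
    · exact h
  -- the level beyond which the other elements are far away
  obtain ⟨l, hl⟩ : ∃ l, ∀ i, l ≤ i → ∀ z, F.co u z ≠ 0 → z ≠ g → g⁻¹ * z ∉ T.M i := by
    by_cases hS : ∃ z, F.co u z ≠ 0 ∧ z ≠ g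
    · obtain ⟨b, ⟨hb, hbg⟩, hb2⟩ := hwf.has_min {z | F.co u z ≠ 0 ∧ z ≠ g} hS
      have hb3 : g⁻¹ * b ≠ 1 := by
        intro h2
        exact hbg (inv_mul_eq_one.1 h2).symm
      obtain ⟨l, hl1, hl2⟩ := T.exists_level hb3
      refine ⟨l + 1, fun i hi z hz hzg hzi => ?_⟩
      have h1 : g⁻¹ * b ∈ T.M i := by
        by_cases hzb : z = b
        · rw [← hzb]
          exact hzi
        · have h2 : F.o.lt b z := by
            rcases lt_or F.o hzb with h | h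
            · exact absurd ⟨h, hz, hb⟩ (hb2 z ⟨hz, hzg⟩)
            · exact h
          exact conv_of T F hF i (g⁻¹ * b) (g⁻¹ * z) (hgmin b hb hbg) (lt_ml F.o g⁻¹ h2) hzi
      have h3 := T.mono hi h1
      exact hl2 ((T.succ l _).1 h3).2
    · push Not at hS
      exact ⟨0, fun i _ z hz hzg => absurd (hS z hz) hzg⟩
  refine ⟨max j l, le_max_left _ _, fun i hi => ?_⟩
  have hji : j ≤ i := le_trans (le_max_left _ _) hi
  have hli : l ≤ i := le_trans (le_max_right _ _) hi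
  have : (T.M i).Normal := T.normal i
  have hc := conv_of T F hF i
  have hui : FinOn F (T.M i) u := finOn_mono F (T.mono hji) hu
  -- the remainder
  set w : F.U := 1 + F.sg g⁻¹ * u with hwdef
  set v : F.U := u⁻¹ * F.sg g with hvdef
  have htwo : (2 : F.U) = 0 := by
    have := CharP.cast_eq_zero F.U 2
    exact_mod_cast this
  have hgg : F.sg g⁻¹ * F.sg g = 1 := by
    rw [← map_mul, inv_mul_cancel, map_one]
  have hgg' : F.sg g * F.sg g⁻¹ = 1 := by
    rw [← map_mul, mul_inv_cancel, map_one]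
  have hcw : ∀ x, F.co w x = (if x = 1 then 1 else 0) + F.co u (g * x) := by
    intro x
    rw [hwdef, map_add, Pi.add_apply, co_one, co_sg_mul, inv_inv]
  have hg1 : F.co u g = 1 := by
    have h1 : ∀ a : F2, a ≠ 0 → a = 1 := by decide
    exact h1 _ hg
  have hw1 : F.co w 1 = 0 := by
    rw [hcw, if_pos rfl, mul_one, hg1]
    decide
  have hwx : ∀ x, F.co w x ≠ 0 → F.co u (g * x) ≠ 0 ∧ g * x ≠ g := by
    intro x hx
    have hx1 : x ≠ 1 := by
      rintro rfl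
      exact hx hw1
    rw [hcw, if_neg hx1, zero_add] at hx
    refine ⟨hx, fun h => hx1 ?_⟩
    exact mul_eq_left.1 h
  have hwpos : ∀ y, F.co w y ≠ 0 → F.o.pos y ∧ y ∉ T.M i := by
    intro y hy
    obtain ⟨h1, h2⟩ := hwx y hy
    have h3 := hgmin _ h1 h2
    have h4 := hl i hli _ h1 h2
    have e : g⁻¹ * (g * y) = y := by group
    unfold BiOrd.lt at h3
    rw [e] at h3 h4
    exact ⟨h3, h4⟩
  have hwf2 : FinOn F (T.M i) w := by
    intro h
    refine Set.Finite.of_finite_image (f := fun x => g * x) ((hui (g * h)).subset ?_)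
      (fun a _ b _ hab => mul_left_cancel hab)
    rintro _ ⟨x, ⟨hx, hxM⟩, rfl⟩
    refine ⟨(hwx x hx).1, ?_⟩
    have e : (g * h)⁻¹ * (g * x) = h⁻¹ * x := by group
    simp only [e]
    exact hxM
  have hv : v = 1 + w * v := by
    have h1 : w * v = v + 1 := by
      rw [hwdef, hvdef, add_mul, one_mul, mul_assoc, ← mul_assoc u, mul_inv_cancel₀ hu0, one_mul,
        hgg]
    have h2 : (1 : F.U) + 1 = 0 := by
      rw [one_add_one_eq_two]
      exact htwo
    rw [h1, add_comm v 1, ← add_assoc, h2, zero_add]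
  have hvf : FinOn F (T.M i) v := geo hN F (T.M i) hc w v hwf2 hwpos hv
  have hinv : u⁻¹ = v * F.sg g⁻¹ := by
    rw [hvdef, mul_assoc, hgg', mul_one]
  rw [hinv]
  exact hM G F (T.M i) (T.normal i) hc v (F.sg g⁻¹) hvf (finOn_sg F _ _)

end

end Pool.Agent.RTF.H97
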